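import Pool.Agent.Y670.KC.Defs

/-! Job KC-FIN: adding `m` isolated points does not change the computable dimension
(helper592). -/

set_option autoImplicit false

namespace Pool.Agent.Y592.KC

open Pool.Agent.Helper941 Pool.Agent.Helper941.IsoProb Pool.Agent.Helper941.Dim
open Pool.Agent.Helper941.Zeta
open Pool.Agent.Y670.KC (NoIso addFin Stm_FIN)

/-- shift of a permutation -/
def up (m : ℕ) (g : ℕ ≃ ℕ) : ℕ ≃ ℕ where
  toFun x := if x < m then x else g (x - m) + m
  invFun x := if x < m then x else g.symm (x - m) + m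
  left_inv x := by
    by_cases h : x < m
    · simp [h]
    · simp [h]
      omega
  right_inv x := by
    by_cases h : x < m
    · simp [h]
    · simp [h]
      omega

theorem up_lt {m x : ℕ} (g : ℕ ≃ ℕ) (h : x < m) : up m g x = x := if_pos h

theorem up_ge {m x : ℕ} (g : ℕ ≃ ℕ) (h : m ≤ x) : up m g x = g (x - m) + m :=
  if_neg (by omega)

/-- the part above `m` of a permutation -/
def down (m : ℕ) (g : ℕ ≃ ℕ) (hg : ∀ x, m ≤ g x ↔ m ≤ x) : ℕ ≃ ℕ where
  toFun n := g (n + m) - m
  invFun n := g.symm (n + m) - m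
  left_inv n := by
    have h1 : m ≤ g (n + m) := (hg _).2 (by omega)
    show g.symm (g (n + m) - m + m) - m = n
    rw [Nat.sub_add_cancel h1, g.symm_apply_apply]
    omega
  right_inv n := by
    have h1 : m ≤ g.symm (n + m) := (hg _).1 (by rw [g.apply_symm_apply]; omega)
    show g (g.symm (n + m) - m + m) - m = n
    rw [Nat.sub_add_cancel h1, g.apply_symm_apply]
    omega

theorem down_apply (m : ℕ) (g : ℕ ≃ ℕ) (hg : ∀ x, m ≤ g x ↔ m ≤ x) (n : ℕ) :
    down m g hg n = g (n + m) - m := rfl

theorem up_comp (m : ℕ) {g : ℕ ≃ ℕ} (h : Computable g) : Computable (up m g) := by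
  have h1 : Computable fun x : ℕ => if x < m then x else g (x - m) + m :=
    c_ite (p_lt c_id (c_const m)) c_id
      (c_add (h.comp (c_sub c_id (c_const m))) (c_const m))
  exact h1

theorem down_comp (m : ℕ) {g : ℕ ≃ ℕ} (hg : ∀ x, m ≤ g x ↔ m ≤ x) (h : Computable g) :
    Computable (down m g hg) := by
  have h1 : Computable fun x : ℕ => g (x + m) - m :=
    c_sub (h.comp (c_add c_id (c_const m))) (c_const m)
  exact h1

theorem addFin_add {m : ℕ} {A : Str} {i x y : ℕ} : addFin m A i (x + m) (y + m) ↔ A i x y := by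
  unfold addFin
  rw [Nat.add_sub_cancel, Nat.add_sub_cancel]
  constructor
  · exact fun h => h.2.2
  · exact fun h => ⟨by omega, by omega, h⟩

theorem iso_up {A B : Str} (m : ℕ) {f : ℕ ≃ ℕ} (h : IsIso A B f) :
    IsIso (addFin m A) (addFin m B) (up m f) := by
  intro i x y
  by_cases hx : m ≤ x
  · by_cases hy : m ≤ y
    · rw [up_ge f hx, up_ge f hy, addFin_add, ← h i]
      exact ⟨fun h => h.2.2, fun h => ⟨hx, hy, h⟩⟩
    · rw [up_lt f (not_le.1 hy)]
      exact ⟨fun h => absurd h.2.1 hy, fun h => absurd h.2.1 hy⟩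
  · rw [up_lt f (not_le.1 hx)]
    exact ⟨fun h => absurd h.1 hx, fun h => absurd h.1 hx⟩

theorem iso_down {A B : Str} (m : ℕ) {g : ℕ ≃ ℕ} (hg : ∀ x, m ≤ g x ↔ m ≤ x)
    (h : IsIso (addFin m A) (addFin m B) g) : IsIso A B (down m g hg) := by
  intro i x y
  rw [down_apply, down_apply, ← addFin_add (m := m) (A := A) (i := i) (x := x) (y := y), h]
  have hx : m ≤ g (x + m) := (hg _).2 (by omega)
  have hy : m ≤ g (y + m) := (hg _).2 (by omega)
  exact ⟨fun h => h.2.2, fun h => ⟨hx, hy, h⟩⟩

theorem isIso_symm {A B : Str} {f : ℕ ≃ ℕ} (h : IsIso A B f) : IsIso B A f.symm :=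
  fun i x y => by rw [h, f.apply_symm_apply, f.apply_symm_apply]

theorem noIso_iso {A B : Str} {f : ℕ ≃ ℕ} (h : IsIso A B f) (hA : NoIso A) : NoIso B := by
  intro x
  obtain ⟨i, y, hy⟩ := hA (f.symm x)
  refine ⟨i, f y, ?_⟩
  rw [h, h, f.apply_symm_apply] at hy
  exact hy

theorem ge_of_noIso {A B : Str} {m : ℕ} {g : ℕ ≃ ℕ} (hA : NoIso A)
    (h : IsIso (addFin m A) (addFin m B) g) {x : ℕ} (hx : m ≤ x) : m ≤ g x := by
  obtain ⟨i, y, hy⟩ := hA (x - m)
  have e : x - m + m = x := by omega
  rcases hy with hy | hy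
  · rw [← addFin_add (m := m) (A := A) (i := i) (x := x - m) (y := y), e, h] at hy
    exact hy.1
  · rw [← addFin_add (m := m) (A := A) (i := i) (x := y) (y := x - m), e, h] at hy
    exact hy.2.1

theorem ge_iff {A B : Str} {m : ℕ} {g : ℕ ≃ ℕ} (hA : NoIso A) (hB : NoIso B)
    (h : IsIso (addFin m A) (addFin m B) g) (x : ℕ) : m ≤ g x ↔ m ≤ x := by
  constructor
  · intro hx
    have := ge_of_noIso hB (isIso_symm h) hx
    rwa [g.symm_apply_apply] at this
  · exact ge_of_noIso hA h

theorem comp_addFin (m : ℕ) {A : Str} (hA : IsComp A) : IsComp (addFin m A) := by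
  have h1 : ComputablePred fun q : ℕ × ℕ × ℕ => A q.1 (q.2.1 - m) (q.2.2 - m) :=
    computablePred_comp (P := fun q : ℕ × ℕ × ℕ => A q.1 q.2.1 q.2.2) hA
      (c_pair (c_fst c_id) (c_pair (c_sub (c_fst (c_snd c_id)) (c_const m))
        (c_sub (c_snd (c_snd c_id)) (c_const m))))
  exact p_and (p_le (c_const m) (c_fst (c_snd c_id)))
    (p_and (p_le (c_const m) (c_snd (c_snd c_id))) h1)

theorem comp_up_inv (m : ℕ) {C : Str} (hC : IsComp C) :
    IsComp fun i x y => C i (x + m) (y + m) := by
  exact computablePred_comp (P := fun q : ℕ × ℕ × ℕ => C q.1 q.2.1 q.2.2) hC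
    (c_pair (c_fst c_id) (c_pair (c_add (c_fst (c_snd c_id)) (c_const m))
      (c_add (c_snd (c_snd c_id)) (c_const m))))

theorem comp_tr {C : Str} (hC : IsComp C) {s : ℕ → ℕ} (hs : Computable s) :
    IsComp fun i x y => C i (s x) (s y) := by
  exact computablePred_comp (P := fun q : ℕ × ℕ × ℕ => C q.1 q.2.1 q.2.2) hC
    (c_pair (c_fst c_id) (c_pair (hs.comp (c_fst (c_snd c_id)))
      (hs.comp (c_snd (c_snd c_id)))))

theorem swap_comp (a b : ℕ) : Computable (Equiv.swap a b) := by
  have h1 : Computable fun x : ℕ => if x = a then b else if x = b then a else x :=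
    c_ite (p_eq c_id (c_const a)) (c_const b)
      (c_ite (p_eq c_id (c_const b)) (c_const a) c_id)
  refine h1.of_eq fun x => ?_
  rw [Equiv.swap_apply_def]

theorem exists_move (f : ℕ ≃ ℕ) (m : ℕ) :
    ∃ s : ℕ ≃ ℕ, Computable s ∧ ∀ i < m, s (f i) = i := by
  induction m with
  | zero => exact ⟨Equiv.refl ℕ, Computable.id, fun i hi => absurd hi (Nat.not_lt_zero _)⟩
  | succ m ih =>
    obtain ⟨s, hs, h⟩ := ih
    refine ⟨s.trans (Equiv.swap (s (f m)) m), (swap_comp _ _).comp hs, fun i hi => ?_⟩
    show Equiv.swap (s (f m)) m (s (f i)) = i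
    by_cases him : i = m
    · rw [him, Equiv.swap_apply_left]
    · have hi' : i < m := by omega
      rw [h i hi']
      refine Equiv.swap_apply_of_ne_of_ne ?_ him
      intro h'
      have h1 : s (f i) = s (f m) := by rw [h i hi', ← h']
      exact him (f.injective (s.injective h1))

/-- the map on the copies -/
def mp (A : Str) (m : ℕ) (B : {B : Str // IsCopy A B}) :
    {B : Str // IsCopy (addFin m A) B} :=
  ⟨addFin m B.1, comp_addFin m B.2.1, by
    obtain ⟨f, hf⟩ := B.2.2
    exact ⟨up m f, iso_up m hf⟩⟩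

theorem t_FIN : Stm_FIN := by
  intro A m hA hN
  have hmp : ∀ B C : {B : Str // IsCopy A B}, (copySetoid A).r B C →
      (copySetoid (addFin m A)).r (mp A m B) (mp A m C) := by
    rintro B C ⟨f, hf, hc⟩
    exact ⟨up m f, iso_up m hf, up_comp m hc⟩
  have hnB : ∀ B : {B : Str // IsCopy A B}, NoIso B.1 := by
    intro B
    obtain ⟨f, hf⟩ := B.2.2
    exact noIso_iso hf hN
  let Φ : Quotient (copySetoid A) → Quotient (copySetoid (addFin m A)) :=
    Quotient.map (mp A m) hmp
  have hinj : Function.Injective Φ := by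
    intro p q
    refine Quotient.inductionOn₂ p q fun B C h => ?_
    have h1 : CompIso (addFin m B.1) (addFin m C.1) := Quotient.exact h
    obtain ⟨g, hg, hc⟩ := h1
    exact Quotient.sound ⟨down m g (ge_iff (hnB B) (hnB C) hg), iso_down m _ hg,
      down_comp m _ hc⟩
  have hsurj : Function.Surjective Φ := by
    intro q
    refine Quotient.inductionOn q fun C => ?_
    obtain ⟨C, hCc, f, hf⟩ := C
    obtain ⟨s, hs, hsf⟩ := exists_move f m
    -- the moved structure
    let C' : Str := fun i x y => C i (s.symm x) (s.symm y)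
    have hC'c : IsComp C' := comp_tr hCc (computable_symm hs)
    have hCC' : IsIso C C' s := fun i x y => by
      show C i x y ↔ C i (s.symm (s x)) (s.symm (s y))
      rw [s.symm_apply_apply, s.symm_apply_apply]
    let g : ℕ ≃ ℕ := f.trans s
    have hg : IsIso (addFin m A) C' g := fun i x y => (hf i x y).trans (hCC' i _ _)
    have hgi : ∀ i < m, g i = i := hsf
    have hge : ∀ x, m ≤ g x ↔ m ≤ x := by
      intro x
      constructor
      · intro h
        by_contra hx
        rw [hgi x (by omega)] at h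
        exact hx h
      · intro h
        by_contra hx
        have h1 : g (g x) = g x := hgi (g x) (by omega)
        have h2 : g x = x := g.injective h1
        omega
    let B : Str := fun i x y => C' i (x + m) (y + m)
    have hBc : IsComp B := comp_up_inv m hC'c
    have hC'B : C' = addFin m B := by
      funext i x y
      refine propext ⟨fun h => ?_, fun h => ?_⟩
      · have h1 : addFin m A i (g.symm x) (g.symm y) := by
          rw [hg, g.apply_symm_apply, g.apply_symm_apply]
          exact h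
        have hx : m ≤ x := by
          have := (hge (g.symm x)).2 h1.1
          rwa [g.apply_symm_apply] at this
        have hy : m ≤ y := by
          have := (hge (g.symm y)).2 h1.2.1
          rwa [g.apply_symm_apply] at this
        refine ⟨hx, hy, ?_⟩
        show C' i (x - m + m) (y - m + m)
        rw [Nat.sub_add_cancel hx, Nat.sub_add_cancel hy]
        exact h
      · have h1 : C' i (x - m + m) (y - m + m) := h.2.2
        rw [Nat.sub_add_cancel h.1, Nat.sub_add_cancel h.2.1] at h1
        exact h1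
    have hAB : IsIso A B (down m g hge) := by
      rw [hC'B] at hg
      exact iso_down m hge hg
    refine ⟨Quotient.mk _ ⟨B, hBc, _, hAB⟩, ?_⟩
    refine Quotient.sound ?_
    show CompIso (addFin m B) C
    rw [← hC'B]
    exact CompIso.symm ⟨s, hCC', hs⟩
  exact (Cardinal.mk_congr (Equiv.ofBijective Φ ⟨hinj, hsurj⟩)).symm

end Pool.Agent.Y592.KC
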